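import Pool.Agent.helper55.GL.Spec

/-!
# Project gl, module CL3: classification of the atoms with a class of size at most three
-/

set_option autoImplicit false

namespace Pool.Agent.GL

open SimpleGraph

theorem CL3_kab {V : Type} (H : SimpleGraph V) {s t : ℕ} (f : Fin s → V) (g : Fin t → V)
    (hf : Function.Injective f) (hg : Function.Injective g) (hfg : ∀ i j, H.Adj (f i) (g j)) :
    (completeBipartiteGraph (Fin s) (Fin t)) ⊑ H := by
  refine ⟨⟨⟨Sum.elim f g, ?_⟩, ?_⟩⟩
  · rintro (i | i) (j | j) h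
    · simp [completeBipartiteGraph] at h
    · exact hfg i j
    · exact (hfg j i).symm
    · simp [completeBipartiteGraph] at h
  · rintro (i | i) (j | j) h
    · rw [hf h]
    · exact absurd h (hfg i j).ne
    · exact absurd h (hfg j i).ne'
    · rw [hg h]

theorem CL3_three {V : Type} [Finite V] (p : V → Prop) (h : Nat.card {a : V // p a} ≤ 3)
    (a₁ a₂ a₃ : V) (h1 : p a₁) (h2 : p a₂) (h3 : p a₃) (h12 : a₁ ≠ a₂) (h13 : a₁ ≠ a₃)
    (h23 : a₂ ≠ a₃) (a : V) (ha : p a) : a = a₁ ∨ a = a₂ ∨ a = a₃ := by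
  by_contra hcon
  push Not at hcon
  obtain ⟨n1, n2, n3⟩ := hcon
  have hinj : Function.Injective
      (![⟨a₁, h1⟩, ⟨a₂, h2⟩, ⟨a₃, h3⟩, ⟨a, ha⟩] : Fin 4 → {a : V // p a}) := by
    intro i j hij
    fin_cases i <;> fin_cases j <;> simp_all [Subtype.ext_iff, eq_comm]
  have h4 := Nat.card_le_card_of_injective _ hinj
  rw [Nat.card_fin] at h4
  omega

theorem CL3_enum {V : Type} [Finite V] (p : V → Prop) (h : 3 ≤ Nat.card {a : V // p a}) :
    ∃ g : Fin 3 → V, Function.Injective g ∧ ∀ i, p (g i) := by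
  refine ⟨fun i => ((Finite.equivFin {a : V // p a}).symm (Fin.castLE h i)).1, ?_, ?_⟩
  · intro i j hij
    have h1 := (Finite.equivFin {a : V // p a}).symm.injective (Subtype.ext hij)
    exact Fin.castLE_injective h h1
  · intro i
    exact ((Finite.equivFin {a : V // p a}).symm (Fin.castLE h i)).2

/-- a vertex with three neighbours is adjacent to all vertices of a class of size at most three. -/
theorem CL3_full {V : Type} [Finite V] (H : SimpleGraph V) (c : V → Bool) (hc : Pr H c)
    (h3 : Nat.card {a : V // c a = true} ≤ 3) (b : V) (hb : c b = false)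
    (h : 3 ≤ Nat.card {a // H.Adj a b}) (a : V) (ha : c a = true) : H.Adj a b := by
  by_contra hcon
  have hcol : ∀ a', H.Adj a' b → c a' = true := by
    intro a' h'
    have h1 := hc a' b h'
    rw [hb] at h1
    cases h2 : c a'
    · exact absurd h2 h1
    · rfl
  let f : Option {a // H.Adj a b} → {a : V // c a = true} := fun x =>
    match x with
    | none => ⟨a, ha⟩
    | some a' => ⟨a'.1, hcol a'.1 a'.2⟩
  have hf : Function.Injective f := by
    rintro (_ | x) (_ | y) hxy
    · rfl
    · exact absurd (by rw [show a = y.1 from congrArg Subtype.val hxy]; exact y.2) hcon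
    · exact absurd (by rw [show a = x.1 from (congrArg Subtype.val hxy).symm]; exact x.2) hcon
    · have h0 : f (some x) = f (some y) := hxy
      have h1 : x.1 = y.1 := congrArg (fun z : {a : V // c a = true} => z.1) h0
      rw [Subtype.ext h1]
  have h1 := Nat.card_le_card_of_injective f hf
  rw [Finite.card_option] at h1
  omega

/-- the hexagon has a rotation exchanging the colours. -/
theorem CL3_hex {V : Type} (H : SimpleGraph V) (c : V → Bool) (e : Fin 6 → V)
    (he : Function.Bijective e) (hadj : ∀ i j, H.Adj (e i) (e j) ↔ (j = i + 1 ∨ i = j + 1))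
    (hcol : ∀ i : Fin 6, c (e i) = decide (i.val % 2 = 0)) :
    ∃ σ : H ≃g H, ∀ a, c (σ a) = !c a := by
  let E : Fin 6 ≃ V := Equiv.ofBijective e he
  have hE : ∀ i, E i = e i := fun i => rfl
  let τ : V ≃ V := (E.symm.trans (Equiv.addRight (1 : Fin 6))).trans E
  have hτ : ∀ i, τ (e i) = e (i + 1) := by
    intro i
    change E (E.symm (e i) + 1) = e (i + 1)
    rw [← hE i, E.symm_apply_apply, hE]
  refine ⟨⟨τ, ?_⟩, ?_⟩
  · intro a b
    obtain ⟨i, rfl⟩ := he.2 a
    obtain ⟨j, rfl⟩ := he.2 b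
    rw [hτ, hτ, hadj, hadj]
    simp only [add_left_inj]
  · intro a
    obtain ⟨i, rfl⟩ := he.2 a
    change c (τ (e i)) = !c (e i)
    rw [hτ, hcol, hcol]
    revert i
    decide

theorem CL3 (hDG : DG2_stmt) : CL3_stmt := by
  intro V _ H c hc hat hcard h3
  have hdeg := hDG V H hat hcard
  have hft : ∀ a b, H.Adj a b → c b = false → c a = true := by
    intro a b h hb
    have h1 := hc a b h
    rw [hb] at h1
    cases h2 : c a
    · exact absurd h2 h1
    · rfl
  have htf : ∀ a b, H.Adj a b → c a = true → c b = false := by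
    intro a b h hb
    have h1 := hc a b h
    rw [hb] at h1
    cases h2 : c b
    · rfl
    · exact absurd h2.symm h1
  have hcc : ∀ a b, c a = c b → ¬ H.Adj a b := fun a b h h' => hc a b h' h
  by_cases hS : 3 ≤ Nat.card {b : V // c b = false ∧ 3 ≤ Nat.card {a // H.Adj a b}}
  · left
    obtain ⟨g, hg, hgp⟩ := CL3_enum (fun b => c b = false ∧ 3 ≤ Nat.card {a // H.Adj a b}) hS
    obtain ⟨f, hf, hfp⟩ := CL3_enum (fun a => H.Adj a (g 0)) (hgp 0).2
    exact CL3_kab H f g hf hg (fun i j => CL3_full H c hc h3 (g j) (hgp j).1 (hgp j).2 (f i)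
      (hft _ _ (hfp i) (hgp 0).1))
  right
  refine ⟨by omega, ?_⟩
  by_cases hK : (completeBipartiteGraph (Fin 2) (Fin 2)) ⊑ H
  · exact Or.inl hK
  right
  have hno : ∀ a a' b b', a ≠ a' → b ≠ b' → H.Adj a b → H.Adj a b' → H.Adj a' b → H.Adj a' b' →
      False := by
    intro a a' b b' ha hb h1 h2 h3 h4
    apply hK
    refine CL3_kab H ![a, a'] ![b, b'] ?_ ?_ ?_
    · intro i j hij
      fin_cases i <;> fin_cases j <;> first
        | rfl
        | exact absurd hij ha
        | exact absurd hij.symm ha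
    · intro i j hij
      fin_cases i <;> fin_cases j <;> first
        | rfl
        | exact absurd hij hb
        | exact absurd hij.symm hb
    · intro i j
      fin_cases i <;> fin_cases j <;> assumption
  have hdeg' : ∀ v w, ∃ u, u ≠ w ∧ H.Adj v u := by
    intro v w
    obtain ⟨x, y, hxy, hx, hy⟩ := hdeg v
    by_cases hxw : x = w
    · exact ⟨y, fun h => hxy (hxw.trans h.symm), hy⟩
    · exact ⟨x, hxw, hx⟩
  obtain ⟨b₀, hb₀⟩ : ∃ b, c b = false := by
    have hne : Nonempty V := Fintype.card_pos_iff.1 (by omega)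
    obtain ⟨v⟩ := hne
    cases hv : c v
    · exact ⟨v, hv⟩
    · obtain ⟨u, -, hu⟩ := hdeg' v v
      exact ⟨u, htf _ _ hu hv⟩
  obtain ⟨a₁, a₂, h12, h01, h02⟩ := hdeg b₀
  have ca1 : c a₁ = true := hft _ _ h01.symm hb₀
  have ca2 : c a₂ = true := hft _ _ h02.symm hb₀
  obtain ⟨b₁, hb10, h11⟩ := hdeg' a₁ b₀
  have cb1 : c b₁ = false := htf _ _ h11 ca1
  obtain ⟨a₃, h31, h13⟩ := hdeg' b₁ a₁
  have ca3 : c a₃ = true := hft _ _ h13.symm cb1
  have n21 : ¬ H.Adj a₂ b₁ := fun h => hno a₁ a₂ b₀ b₁ h12 hb10.symm h01.symm h11 h02.symm h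
  have h32 : a₃ ≠ a₂ := by
    intro h
    rw [h] at h13
    exact n21 h13.symm
  obtain ⟨b₂, hb20, h22⟩ := hdeg' a₂ b₀
  have cb2 : c b₂ = false := htf _ _ h22 ca2
  have hb21 : b₂ ≠ b₁ := by
    intro h
    rw [h] at h22
    exact n21 h22
  have n12 : ¬ H.Adj a₁ b₂ := fun h => hno a₁ a₂ b₀ b₂ h12 hb20.symm h01.symm h h02.symm h22
  have n30 : ¬ H.Adj a₃ b₀ := fun h => hno a₁ a₃ b₀ b₁ h31.symm hb10.symm h01.symm h11 h h13.symm
  have hthree := CL3_three (fun a => c a = true) h3 a₁ a₂ a₃ ca1 ca2 ca3 h12 h31.symm h32.symm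
  have h23 : H.Adj b₂ a₃ := by
    obtain ⟨a', ha', hb'⟩ := hdeg' b₂ a₂
    rcases hthree a' (hft _ _ hb'.symm cb2) with h | h | h
    · rw [h] at hb'
      exact absurd hb'.symm n12
    · exact absurd h ha'
    · rwa [h] at hb'
  have hfalse : ∀ b, c b = false → b = b₀ ∨ b = b₁ ∨ b = b₂ := by
    intro b hb
    by_contra hcon
    push Not at hcon
    obtain ⟨m0, m1, m2⟩ := hcon
    obtain ⟨x, y, hxy, hx, hy⟩ := hdeg b
    have k12 : H.Adj a₁ b → H.Adj a₂ b → False := fun h h' =>
      hno a₁ a₂ b₀ b h12 m0.symm h01.symm h h02.symm h'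
    have k13 : H.Adj a₁ b → H.Adj a₃ b → False := fun h h' =>
      hno a₁ a₃ b₁ b h31.symm m1.symm h11 h h13.symm h'
    have k23 : H.Adj a₂ b → H.Adj a₃ b → False := fun h h' =>
      hno a₂ a₃ b₂ b h32.symm m2.symm h22 h h23.symm h'
    rcases hthree x (hft _ _ hx.symm hb) with h | h | h <;>
      rcases hthree y (hft _ _ hy.symm hb) with h' | h' | h'
    · exact hxy (h.trans h'.symm)
    · exact k12 (h ▸ hx.symm) (h' ▸ hy.symm)
    · exact k13 (h ▸ hx.symm) (h' ▸ hy.symm)
    · exact k12 (h' ▸ hy.symm) (h ▸ hx.symm)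
    · exact hxy (h.trans h'.symm)
    · exact k23 (h ▸ hx.symm) (h' ▸ hy.symm)
    · exact k13 (h' ▸ hy.symm) (h ▸ hx.symm)
    · exact k23 (h' ▸ hy.symm) (h ▸ hx.symm)
    · exact hxy (h.trans h'.symm)
  have hab : ∀ a b, c a = true → c b = false → a ≠ b := by
    intro a b ha hb h
    rw [h, hb] at ha
    exact Bool.false_ne_true ha
  have hsurj : Function.Surjective (![a₁, b₀, a₂, b₂, a₃, b₁] : Fin 6 → V) := by
    intro v
    cases hv : c v
    · rcases hfalse v hv with h | h | h
      · exact ⟨1, by rw [h]; rfl⟩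
      · exact ⟨5, by rw [h]; rfl⟩
      · exact ⟨3, by rw [h]; rfl⟩
    · rcases hthree v hv with h | h | h
      · exact ⟨0, by rw [h]; rfl⟩
      · exact ⟨2, by rw [h]; rfl⟩
      · exact ⟨4, by rw [h]; rfl⟩
  have d1 := hab a₁ b₀ ca1 hb₀
  have d2 := hab a₁ b₁ ca1 cb1
  have d3 := hab a₁ b₂ ca1 cb2
  have d4 := hab a₂ b₀ ca2 hb₀
  have d5 := hab a₂ b₁ ca2 cb1
  have d6 := hab a₂ b₂ ca2 cb2
  have d7 := hab a₃ b₀ ca3 hb₀
  have d8 := hab a₃ b₁ ca3 cb1
  have d9 := hab a₃ b₂ ca3 cb2
  have hinj : Function.Injective (![a₁, b₀, a₂, b₂, a₃, b₁] : Fin 6 → V) := by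
    intro i j hij
    fin_cases i <;> fin_cases j <;> first
      | rfl
      | (exfalso; first
          | exact d1 hij | exact d2 hij | exact d3 hij | exact d4 hij | exact d5 hij
          | exact d6 hij | exact d7 hij | exact d8 hij | exact d9 hij
          | exact d1 hij.symm | exact d2 hij.symm | exact d3 hij.symm | exact d4 hij.symm
          | exact d5 hij.symm | exact d6 hij.symm | exact d7 hij.symm | exact d8 hij.symm
          | exact d9 hij.symm | exact h12 hij | exact h12 hij.symm | exact h31 hij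
          | exact h31 hij.symm | exact h32 hij | exact h32 hij.symm | exact hb10 hij
          | exact hb10 hij.symm | exact hb20 hij | exact hb20 hij.symm | exact hb21 hij
          | exact hb21 hij.symm)
  refine CL3_hex H c ![a₁, b₀, a₂, b₂, a₃, b₁] ⟨hinj, hsurj⟩ ?_ ?_
  · have t1 : ∀ {a b : V} {P : Prop}, H.Adj a b → P → (H.Adj a b ↔ P) := fun h h' => iff_of_true h h'
    have t2 : ∀ {a b : V} {P : Prop}, ¬ H.Adj a b → ¬ P → (H.Adj a b ↔ P) :=
      fun h h' => iff_of_false h h'
    have s12 := hcc a₁ a₂ (by rw [ca1, ca2])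
    have s13 := hcc a₁ a₃ (by rw [ca1, ca3])
    have s23 := hcc a₂ a₃ (by rw [ca2, ca3])
    have r01 := hcc b₀ b₁ (by rw [hb₀, cb1])
    have r02 := hcc b₀ b₂ (by rw [hb₀, cb2])
    have r12 := hcc b₁ b₂ (by rw [cb1, cb2])
    intro i j
    fin_cases i <;> fin_cases j <;> first
      | exact t2 (H.loopless.irrefl _) (by decide)
      | exact t1 h01 (by decide) | exact t1 h01.symm (by decide)
      | exact t1 h02 (by decide) | exact t1 h02.symm (by decide)
      | exact t1 h11 (by decide) | exact t1 h11.symm (by decide)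
      | exact t1 h13 (by decide) | exact t1 h13.symm (by decide)
      | exact t1 h22 (by decide) | exact t1 h22.symm (by decide)
      | exact t1 h23 (by decide) | exact t1 h23.symm (by decide)
      | exact t2 s12 (by decide) | exact t2 (fun h => s12 h.symm) (by decide)
      | exact t2 s13 (by decide) | exact t2 (fun h => s13 h.symm) (by decide)
      | exact t2 s23 (by decide) | exact t2 (fun h => s23 h.symm) (by decide)
      | exact t2 r01 (by decide) | exact t2 (fun h => r01 h.symm) (by decide)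
      | exact t2 r02 (by decide) | exact t2 (fun h => r02 h.symm) (by decide)
      | exact t2 r12 (by decide) | exact t2 (fun h => r12 h.symm) (by decide)
      | exact t2 n21 (by decide) | exact t2 (fun h => n21 h.symm) (by decide)
      | exact t2 n12 (by decide) | exact t2 (fun h => n12 h.symm) (by decide)
      | exact t2 n30 (by decide) | exact t2 (fun h => n30 h.symm) (by decide)
  · intro i
    fin_cases i
    · exact ca1
    · exact hb₀
    · exact ca2
    · exact cb2
    · exact ca3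
    · exact cb1

end Pool.Agent.GL
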